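import Pool.Agent.Helper52.DD.Orders

/-! # The least odd number of detours and the minimum degree (MP_ce2317_co) -/

namespace Pool.Agent.Results.MP_ce2317_co.AllOrders

open Pool.Agent.Helper52.DD

/-- Let `1 ≤ k`, `k + 3 ≤ k'` and `200 ≤ k'`. For every order `n`: if `b(k',n)` is defined then so is
`b(k,n)`, and `b(k,n) < b(k',n)`. -/
theorem result (n k k' : ℕ) (hk : 1 ≤ k) (hkk : k + 3 ≤ k') (h200 : 200 ≤ k')
    (hne : (oddValues k' n).Nonempty) : (oddValues k n).Nonempty ∧ b k n < b k' n :=
  Orders.far n k k' hk hkk h200 hne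

end Pool.Agent.Results.MP_ce2317_co.AllOrders
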