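import Pool.Agent.Helper52.DD.Dirac

/-! # The least odd number of detours and the minimum degree (MP_ce2317_co) -/

namespace Pool.Agent.Results.MP_ce2317_co.DiracRange

open Pool.Agent.Helper52.DD

/-- Let `1 ≤ k < k'` and `n ≤ 2k'`. If `b(k',n)` is defined then so is `b(k,n)`, and
`b(k,n) < b(k',n)`. -/
theorem result (n k k' : ℕ) (hk : 1 ≤ k) (hkk : k < k') (hn : n ≤ 2 * k')
    (hne : (oddValues k' n).Nonempty) : (oddValues k n).Nonempty ∧ b k n < b k' n :=
  Dirac.dirac n k k' hk hkk hn hne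

end Pool.Agent.Results.MP_ce2317_co.DiracRange
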